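import Pool.Agent.J6H9.EW.Stm

/-!
# Project EW (helper9, MP_f6e960_lc), module EW-GLU (helper68): gluing
-/

set_option autoImplicit false

namespace Pool.Agent.J6H68.EW

open Filter Topology Pool.Agent.J6H9.EU Pool.Agent.J6H9.EV Pool.Agent.J6H9.EW

open Classical in
/-- the weight of the part of `A` below `n` -/
noncomputable def T (g : ℕ → ℝ) (A : Set ℕ) (n : ℕ) : ℝ :=
  ∑ i ∈ (Finset.range n).filter (· ∈ A), g i

lemma mem_EU (g : ℕ → ℝ) (A : Set ℕ) :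
    A ∈ EU g ↔ Tendsto (fun n => T g A n / ∑ i ∈ Finset.range n, g i) atTop (𝓝 0) := Iff.rfl

lemma T_nonneg {g : ℕ → ℝ} (hg : ∀ n, 0 ≤ g n) (A : Set ℕ) (n : ℕ) : 0 ≤ T g A n := by
  unfold T
  exact Finset.sum_nonneg fun i _ => hg i

lemma le_T {g : ℕ → ℝ} (hg : ∀ n, 0 ≤ g n) {A : Set ℕ} {n : ℕ} {s : Finset ℕ}
    (h : ∀ x ∈ s, x ∈ A) : ∑ i ∈ s.filter (· < n), g i ≤ T g A n := by
  classical
  unfold T
  refine Finset.sum_le_sum_of_subset_of_nonneg ?_ (fun i _ _ => hg i)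
  intro x hx
  rw [Finset.mem_filter] at hx
  rw [Finset.mem_filter, Finset.mem_range]
  exact ⟨hx.2, h x hx.1⟩

lemma T_le {g : ℕ → ℝ} (hg : ∀ n, 0 ≤ g n) (b : ℕ → Finset ℕ) (hb : ∀ k, ∀ x ∈ b k, k ≤ x) (N : ℕ) :
    T g {x | ∃ k, x ∈ b k} N ≤ ∑ k ∈ Finset.range N, ∑ j ∈ (b k).filter (· < N), g j := by
  classical
  have h1 : ∀ k, ∑ j ∈ (b k).filter (· < N), g j =
      ∑ x ∈ Finset.range N, if x ∈ b k then g x else 0 := by
    intro k
    rw [← Finset.sum_filter]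
    refine Finset.sum_congr ?_ fun _ _ => rfl
    ext x
    simp only [Finset.mem_filter, Finset.mem_range]
    tauto
  rw [Finset.sum_congr rfl fun k _ => h1 k, Finset.sum_comm]
  unfold T
  rw [Finset.sum_filter]
  refine Finset.sum_le_sum fun x hx => ?_
  have hx' := Finset.mem_range.1 hx
  by_cases hA : x ∈ {x | ∃ k, x ∈ b k}
  · rw [if_pos hA]
    obtain ⟨k, hk⟩ := hA
    have h2 : (if x ∈ b k then g x else 0) = g x := if_pos hk
    refine le_trans (le_of_eq h2.symm) ?_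
    refine Finset.single_le_sum (f := fun k => if x ∈ b k then g x else 0) ?_ ?_
    · intro i _
      show 0 ≤ if x ∈ b i then g x else 0
      split_ifs
      · exact hg x
      · exact le_rfl
    · exact Finset.mem_range.2 (lt_of_le_of_lt (hb k x hk) hx')
  · rw [if_neg hA]
    refine Finset.sum_nonneg fun i _ => ?_
    split_ifs
    · exact hg x
    · exact le_rfl

lemma union_mem {g : ℕ → ℝ} (hg : ∀ n, 0 ≤ g n)
    (hG : Tendsto (fun n => ∑ i ∈ Finset.range n, g i) atTop atTop) (b : ℕ → Finset ℕ)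
    (hb : ∀ k, ∀ x ∈ b k, k ≤ x)
    (hs : ∀ k N, ∑ j ∈ (b k).filter (· < N), g j ≤ (1 / 2) ^ k * ∑ i ∈ Finset.range N, g i) :
    {x | ∃ k, x ∈ b k} ∈ EU g := by
  classical
  rw [mem_EU, Metric.tendsto_atTop]
  intro ε hε
  obtain ⟨k0, hk0⟩ := exists_pow_lt_of_lt_one (show 0 < ε / 4 by positivity)
    (show (1 / 2 : ℝ) < 1 by norm_num)
  obtain ⟨K, hKdef⟩ : ∃ K, K = ∑ k ∈ Finset.range k0, ∑ j ∈ b k, g j := ⟨_, rfl⟩
  have hK : 0 ≤ K := by
    rw [hKdef]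
    exact Finset.sum_nonneg fun k _ => Finset.sum_nonneg fun j _ => hg j
  have key : ∀ N, T g {x | ∃ k, x ∈ b k} N ≤ K + 2 * (1 / 2) ^ k0 * ∑ i ∈ Finset.range N, g i := by
    intro N
    have hGN : 0 ≤ ∑ i ∈ Finset.range N, g i := Finset.sum_nonneg fun i _ => hg i
    have hsn : ∀ k, 0 ≤ ∑ j ∈ (b k).filter (· < N), g j := fun k => Finset.sum_nonneg fun i _ => hg i
    calc T g {x | ∃ k, x ∈ b k} N ≤ ∑ k ∈ Finset.range N, ∑ j ∈ (b k).filter (· < N), g j :=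
          T_le hg b hb N
      _ ≤ ∑ k ∈ Finset.range (k0 + N), ∑ j ∈ (b k).filter (· < N), g j := by
          refine Finset.sum_le_sum_of_subset_of_nonneg ?_ (fun k _ _ => hsn k)
          intro k hk
          rw [Finset.mem_range] at hk ⊢
          omega
      _ = (∑ k ∈ Finset.range k0, ∑ j ∈ (b k).filter (· < N), g j) +
          ∑ i ∈ Finset.range N, ∑ j ∈ (b (k0 + i)).filter (· < N), g j := by
          rw [Finset.sum_range_add]
      _ ≤ K + ∑ i ∈ Finset.range N, (1 / 2) ^ k0 * (∑ i ∈ Finset.range N, g i) * (1 / 2) ^ i := by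
          refine add_le_add ?_ ?_
          · rw [hKdef]
            refine Finset.sum_le_sum fun k _ => ?_
            exact Finset.sum_le_sum_of_subset_of_nonneg (Finset.filter_subset _ _) (fun i _ _ => hg i)
          · refine Finset.sum_le_sum fun i _ => ?_
            refine (hs (k0 + i) N).trans (le_of_eq ?_)
            rw [pow_add]
            ring
      _ ≤ K + 2 * (1 / 2) ^ k0 * ∑ i ∈ Finset.range N, g i := by
          rw [← Finset.mul_sum]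
          have h2 := sum_geometric_two_le N
          have h3 : 0 ≤ (1 / 2 : ℝ) ^ k0 * (∑ i ∈ Finset.range N, g i) := by positivity
          nlinarith
  obtain ⟨N0, hN0⟩ := tendsto_atTop_atTop.1 hG (4 * K / ε + 1)
  refine ⟨N0, fun N hN => ?_⟩
  have h1 := hN0 N hN
  have hKε : 0 ≤ 4 * K / ε := by positivity
  have hpos : 0 < ∑ i ∈ Finset.range N, g i := by linarith
  rw [Real.dist_eq, sub_zero, abs_of_nonneg (div_nonneg (T_nonneg hg _ _) hpos.le), div_lt_iff₀ hpos]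
  refine lt_of_le_of_lt (key N) ?_
  have h2 : 4 * K / ε < ∑ i ∈ Finset.range N, g i := by linarith
  rw [div_lt_iff₀ hε] at h2
  have h3 : 2 * (1 / 2 : ℝ) ^ k0 * (∑ i ∈ Finset.range N, g i) ≤
      ε / 2 * ∑ i ∈ Finset.range N, g i := by
    refine mul_le_mul_of_nonneg_right ?_ hpos.le
    linarith
  nlinarith

/-- not small sets beyond `M` are not in the ideal -/
lemma not_mem {g : ℕ → ℝ} (hg : ∀ n, 0 < g n) {δ : ℝ} (hδ : 0 < δ) {A : Set ℕ} (hA : A ∈ EU g) :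
    ∃ N0 : ℕ, ∀ c : Finset ℕ, (∀ x ∈ c, N0 ≤ x) → (∀ x ∈ c, x ∈ A) →
      ∀ N : ℕ, ∑ j ∈ c.filter (· < N), g j ≤ δ * ∑ i ∈ Finset.range N, g i := by
  rw [mem_EU, Metric.tendsto_atTop] at hA
  obtain ⟨N0, hN0⟩ := hA δ hδ
  refine ⟨N0, fun c hc hcA N => ?_⟩
  rcases (c.filter (· < N)).eq_empty_or_nonempty with he | ⟨x, hx⟩
  · rw [he, Finset.sum_empty]
    exact mul_nonneg hδ.le (Finset.sum_nonneg fun i _ => (hg i).le)
  · rw [Finset.mem_filter] at hx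
    have h1 : N0 ≤ N := (hc x hx.1).trans hx.2.le
    have hpos : 0 < ∑ i ∈ Finset.range N, g i :=
      Finset.sum_pos (fun i _ => hg i) ⟨x, Finset.mem_range.2 hx.2⟩
    have h2 := hN0 N h1
    rw [Real.dist_eq, sub_zero, abs_of_nonneg (div_nonneg (T_nonneg (fun n => (hg n).le) _ _) hpos.le),
      div_lt_iff₀ hpos] at h2
    exact (le_T (fun n => (hg n).le) hcA).trans h2.le

/-- **EW-GLU.** -/
theorem main : S_GLU := by
  classical
  intro f hf hF ψ hinv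
  by_contra hcon
  unfold Unif at hcon
  push Not at hcon
  obtain ⟨δ, hδ, hcon⟩ := hcon
  have H : ∀ k M : ℕ, ∃ B₁ B₂ C₁ C₂ : Finset ℕ, (∀ x ∈ B₁, M ≤ x) ∧ (∀ x ∈ B₂, M ≤ x) ∧
      (∀ x ∈ C₁, M ≤ x) ∧ (∀ x ∈ C₂, M ≤ x) ∧ Small f ((1 / 2) ^ k) B₁ B₂ ∧
      Dom ψ (B₁.disjSum B₂) (C₁.disjSum C₂) ∧ ¬ Small f δ C₁ C₂ :=
    fun k M => hcon ((1 / 2) ^ k) (by positivity) M
  choose B₁ B₂ C₁ C₂ h1 h2 h3 h4 h5 h6 h7 using H
  obtain ⟨Ms, Ms_succ⟩ : ∃ Ms : ℕ → ℕ, ∀ k, Ms (k + 1) = Ms k + (B₁ k (Ms k)).sup id +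
      (B₂ k (Ms k)).sup id + 1 :=
    ⟨fun k => Nat.rec 0 (fun k m => m + (B₁ k m).sup id + (B₂ k m).sup id + 1) k, fun k => rfl⟩
  have hMs : StrictMono Ms := strictMono_nat_of_lt_succ fun k => by
    rw [Ms_succ]
    omega
  have hMk : ∀ k, k ≤ Ms k := fun k => hMs.le_apply
  have uniq : ∀ i j n, (Ms i ≤ n ∧ n < Ms (i + 1)) → (Ms j ≤ n ∧ n < Ms (j + 1)) → i = j := by
    intro i j n hi hj
    have e1 := hMs.lt_iff_lt.1 (lt_of_le_of_lt hi.1 hj.2)
    have e2 := hMs.lt_iff_lt.1 (lt_of_le_of_lt hj.1 hi.2)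
    omega
  have hB1 : ∀ k, ∀ x ∈ B₁ k (Ms k), Ms k ≤ x ∧ x < Ms (k + 1) := by
    intro k x hx
    refine ⟨h1 k (Ms k) x hx, ?_⟩
    rw [Ms_succ]
    have : x ≤ (B₁ k (Ms k)).sup id := Finset.le_sup (f := id) hx
    omega
  have hB2 : ∀ k, ∀ x ∈ B₂ k (Ms k), Ms k ≤ x ∧ x < Ms (k + 1) := by
    intro k x hx
    refine ⟨h2 k (Ms k) x hx, ?_⟩
    rw [Ms_succ]
    have : x ≤ (B₂ k (Ms k)).sup id := Finset.le_sup (f := id) hx
    omega
  have hval : ∀ k, ∀ x ∈ (B₁ k (Ms k)).disjSum (B₂ k (Ms k)),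
      Ms k ≤ Sum.elim id id x ∧ Sum.elim id id x < Ms (k + 1) := by
    intro k x hx
    rcases x with x | x
    · rw [Finset.inl_mem_disjSum] at hx
      exact hB1 k x hx
    · rw [Finset.inr_mem_disjSum] at hx
      exact hB2 k x hx
  obtain ⟨BB, hBB⟩ : ∃ S : Set (ℕ ⊕ ℕ), S = {x | ∃ k, x ∈ (B₁ k (Ms k)).disjSum (B₂ k (Ms k))} :=
    ⟨_, rfl⟩
  obtain ⟨CC, hCC⟩ : ∃ S : Set (ℕ ⊕ ℕ), S = {x | ∃ k, x ∈ (C₁ k (Ms k)).disjSum (C₂ k (Ms k))} :=
    ⟨_, rfl⟩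
  have hone : ∀ N : ℕ, ∑ i ∈ Finset.range N, (1 : ℝ) = N := by
    intro N
    simp
  have hB : BB ∈ DS (EU fun _ => 1) (EU f) := by
    constructor
    · have e : Sum.inl ⁻¹' BB = {x | ∃ k, x ∈ B₁ k (Ms k)} := by
        rw [hBB]
        ext x
        simp
      rw [e]
      refine union_mem (fun _ => zero_le_one) ?_ _ (fun k x hx => (hMk k).trans (hB1 k x hx).1) ?_
      · simp only [hone]
        exact tendsto_natCast_atTop_atTop
      · intro k N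
        rw [hone]
        have := (h5 k (Ms k)).1 N
        simpa using this
    · have e : Sum.inr ⁻¹' BB = {x | ∃ k, x ∈ B₂ k (Ms k)} := by
        rw [hBB]
        ext x
        simp
      rw [e]
      exact union_mem (fun n => (hf n).le) hF _ (fun k x hx => (hMk k).trans (hB2 k x hx).1)
        (fun k N => (h5 k (Ms k)).2 N)
  have hC : CC ∉ DS (EU fun _ => 1) (EU f) := by
    rintro ⟨hc1, hc2⟩
    obtain ⟨N1, hN1⟩ := not_mem (fun _ => zero_lt_one) hδ hc1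
    obtain ⟨N2, hN2⟩ := not_mem hf hδ hc2
    obtain ⟨k, hk⟩ : ∃ k, k = N1 + N2 := ⟨_, rfl⟩
    have hkM := hMk k
    apply h7 k (Ms k)
    constructor
    · intro N
      have := hN1 (C₁ k (Ms k)) (fun x hx => by
        have := h3 k (Ms k) x hx
        omega) (fun x hx => by
        rw [hCC]
        exact ⟨k, Finset.inl_mem_disjSum.2 hx⟩) N
      rw [hone] at this
      simpa using this
    · intro N
      exact hN2 (C₂ k (Ms k)) (fun x hx => by
        have := h4 k (Ms k) x hx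
        omega) (fun x hx => by
        rw [hCC]
        exact ⟨k, Finset.inr_mem_disjSum.2 hx⟩) N
  have himg : ∀ (S : Set (ℕ ⊕ ℕ)) (n : ℕ),
      (ψ '' S ∩ Set.Iio n).ncard = {x | x ∈ S ∧ ψ x < n}.ncard := by
    intro S n
    have e : ψ '' S ∩ Set.Iio n = ψ '' {x | x ∈ S ∧ ψ x < n} := by
      ext y
      constructor
      · rintro ⟨⟨x, hx, rfl⟩, hy⟩
        exact ⟨x, ⟨hx, hy⟩, rfl⟩
      · rintro ⟨x, ⟨hx, hy⟩, rfl⟩
        exact ⟨⟨x, hx, rfl⟩, hy⟩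
    rw [e, Set.ncard_image_of_injective _ ψ.injective]
  choose j hj1 hj2 using fun k => h6 k (Ms k)
  have hidx : ∀ x ∈ CC, ∃ k, x ∈ (C₁ k (Ms k)).disjSum (C₂ k (Ms k)) := by
    intro x hx
    rw [hCC] at hx
    exact hx
  choose! κ hκ using hidx
  have hcount : ∀ n, (ψ '' CC ∩ Set.Iio n).ncard ≤ (ψ '' BB ∩ Set.Iio n).ncard := by
    intro n
    rw [himg, himg]
    have hfinall : {x | ψ x < n}.Finite := by
      have e : {x | ψ x < n} = ψ ⁻¹' (Set.Iio n) := rfl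
      rw [e]
      exact (Set.finite_Iio n).preimage ψ.injective.injOn
    refine Set.ncard_le_ncard_of_injOn (fun x => j (κ x) x) ?_ ?_ (hfinall.subset fun x hx => hx.2)
    · rintro x ⟨hx, hxn⟩
      have h8 := hj2 (κ x) x (hκ x hx)
      refine ⟨?_, lt_of_le_of_lt h8.2 hxn⟩
      rw [hBB]
      exact ⟨κ x, h8.1⟩
    · rintro x ⟨hx, -⟩ y ⟨hy, -⟩ hxy
      have hxy' : j (κ x) x = j (κ y) y := hxy
      have h8 := hval _ _ (hj2 (κ x) x (hκ x hx)).1
      have h9 := hval _ _ (hj2 (κ y) y (hκ y hy)).1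
      rw [← hxy'] at h9
      have h10 := uniq _ _ _ h8 h9
      rw [← h10] at hxy'
      have hy' := hκ y hy
      rw [← h10] at hy'
      exact hj1 (κ x) (Finset.mem_coe.2 (hκ x hx)) (Finset.mem_coe.2 hy') hxy'
  obtain ⟨A, hA, hA'⟩ := hinv (ψ '' BB) ⟨BB, hB, rfl⟩ (ψ '' CC) hcount
  have hAC : A = CC := ψ.injective.image_injective hA'
  rw [hAC] at hA
  exact hC hA

end Pool.Agent.J6H68.EW
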